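import Mathlib

/-!
The programs that the kernel runs: packed operators on the blocks of the graded module, and the
sum over all orders of a list of operators applied to a vector.
Everything is written with raw recursors and raw operations on `Nat`, so that the kernel evaluates
it with its cache of weak head normal forms.
-/

set_option autoImplicit false

namespace Pool.Agent.Work.MP_bde882_al.Pg62

/-- search tree of the blocks of one operator; `key` = code of the source block, `K` = stride
(at least the dimension of the source block), `N` = number of slots (at least the dimension of the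
target block, coprime to `K`); the table of the block is cut at lane `off` from the chunk `ch` -/
inductive Tr where
  | lf : Tr
  | nd (key K N off : Nat) (ch : List Nat) (l r : Tr) : Tr

/-- an operator: its shift of the block code and its blocks -/
inductive Op where
  | mk (sh : Nat) (tr : Tr) : Op

/-- one block of an operator -/
inductive Blk where
  | no : Blk
  | mk (K N off : Nat) (ch : List Nat) : Blk

noncomputable def shO (x : Op) : Nat := Op.rec (motive := fun _ => Nat) (fun sh _ => sh) x

noncomputable def trO (x : Op) : Tr := Op.rec (motive := fun _ => Tr) (fun _ tr => tr) x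

/-- search for the block with code `b` -/
noncomputable def find (b : Nat) (t : Tr) : Blk :=
  Tr.rec (motive := fun _ => Blk) Blk.no
    (fun key K N off ch _ _ il ir =>
      Bool.rec (motive := fun _ => Blk)
        (Bool.rec (motive := fun _ => Blk) ir il (Nat.ble b key))
        (Blk.mk K N off ch) (Nat.beq b key)) t

theorem find_lf (b : Nat) : find b Tr.lf = Blk.no := rfl

theorem find_nd (b key K N off : Nat) (ch : List Nat) (l r : Tr) :
    find b (Tr.nd key K N off ch l r)
      = if b = key then Blk.mk K N off ch else if b ≤ key then find b l else find b r := by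
  change Bool.rec (motive := fun _ => Blk)
        (Bool.rec (motive := fun _ => Blk) (find b r) (find b l) (Nat.ble b key))
        (Blk.mk K N off ch) (Nat.beq b key) = _
  by_cases h : b = key
  · rw [if_pos h]
    have h1 : Nat.beq b key = true := by
      rw [h]
      exact Nat.beq_refl key
    rw [h1]
  · rw [if_neg h]
    have h1 : Nat.beq b key = false := by
      cases h2 : Nat.beq b key with
      | false => rfl
      | true => exact absurd (Nat.eq_of_beq_eq_true h2) h
    rw [h1]
    change Bool.rec (motive := fun _ => Blk) (find b r) (find b l) (Nat.ble b key) = _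
    by_cases h3 : b ≤ key
    · rw [if_pos h3]
      have h4 : Nat.ble b key = true := Nat.ble_eq_true_of_le h3
      rw [h4]
    · rw [if_neg h3]
      have h4 : Nat.ble b key = false := by
        cases h5 : Nat.ble b key with
        | false => rfl
        | true => exact absurd (Nat.le_of_ble_eq_true h5) h3
      rw [h4]

/-- mask of the top lanes `K * i + (K - 1)`, `i < N`, of width `W` -/
noncomputable def tmask (W K N : Nat) : Nat :=
  Nat.shiftLeft (Nat.mul (Nat.sub (Nat.pow 2 W) 1)
    (Nat.div (Nat.sub (Nat.pow 2 (Nat.mul W (Nat.mul K N))) 1) (Nat.sub (Nat.pow 2 (Nat.mul W K)) 1)))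
    (Nat.mul W (Nat.sub K 1))

/-- the modulus `2 ^ (W N) - 1` -/
noncomputable def mdl (W N : Nat) : Nat := Nat.sub (Nat.pow 2 (Nat.mul W N)) 1

/-- application of one block; `wc W ch off n` = the `n` lanes of the chunk `ch` from the lane `off`
on, as a packed number with lanes of width `W` -/
noncomputable def apB (wc : Nat → List Nat → Nat → Nat → Nat) (W : Nat) (b : Blk) (y : Nat) : Nat :=
  Blk.rec (motive := fun _ => Nat) 0
    (fun K N off ch =>
      Nat.mod (Nat.land (Nat.mul (wc W ch off (Nat.mul K N)) y) (tmask W K N)) (mdl W N)) b

/-- application of the operator `x` to the packed vector `y` of the block `b` -/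
noncomputable def app (wc : Nat → List Nat → Nat → Nat → Nat) (W : Nat) (x : Op) (b y : Nat) : Nat :=
  apB wc W (find b (trO x)) y

/-- `g n`, the argument being evaluated first -/
noncomputable def frc (g : Nat → Nat) (n : Nat) : Nat :=
  Nat.rec (motive := fun _ => Nat) (g Nat.zero) (fun m _ => g (Nat.succ m)) n

theorem frc_eq (g : Nat → Nat) (n : Nat) : frc g n = g n := by
  cases n <;> rfl

/-- block code after the operators of the list `t`, from the block `b0` -/
noncomputable def wt (b0 : Nat) (t : List Op) : Nat :=
  List.rec (motive := fun _ => Nat) b0 (fun x _ r => Nat.add (shO x) r) t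

theorem wt_nil (b0 : Nat) : wt b0 [] = b0 := rfl

theorem wt_cons (b0 : Nat) (x : Op) (t : List Op) : wt b0 (x :: t) = shO x + wt b0 t := rfl

theorem wt_eq (b0 : Nat) (t : List Op) : wt b0 t = b0 + (t.map shO).sum := by
  induction t with
  | nil => rfl
  | cons x t ih =>
    rw [wt_cons, ih, List.map_cons, List.sum_cons]
    omega

/-- sum over the selections of a list -/
noncomputable def selS (F : Op → List Op → Nat) (l : List Op) : Nat :=
  List.rec (motive := fun _ => (Op → List Op → Nat) → Nat) (fun _ => 0)
    (fun a t ih F => Nat.add (F a t) (ih (fun x t' => F x (List.cons a t')))) l F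

theorem selS_nil (F : Op → List Op → Nat) : selS F [] = 0 := rfl

theorem selS_cons (F : Op → List Op → Nat) (a : Op) (t : List Op) :
    selS F (a :: t) = F a t + selS (fun x t' => F x (a :: t')) t := rfl

/-- 15-bit masks on 430 lanes of 30 bits -/
noncomputable def M15 : Nat :=
  Nat.mul 32767 (Nat.div (Nat.sub (Nat.pow 2 12900) 1) (Nat.sub (Nat.pow 2 30) 1))

/-- folding of lanes of 30 bits at 15 bits -/
noncomputable def fd (y : Nat) : Nat :=
  Nat.add (Nat.land y M15) (Nat.land (Nat.shiftRight y 15) M15)

/-- sum over all orders of the operators of `l` (`n` = length of `l`) applied to the vector `y0` of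
the block `b0`, folded after each step -/
noncomputable def pv (wc : Nat → List Nat → Nat → Nat → Nat) (b0 y0 : Nat) (n : Nat) :
    List Op → Nat :=
  Nat.rec (motive := fun _ => List Op → Nat) (fun _ => y0)
    (fun _ ih l => fd (selS (fun x t => frc (fun b => app wc 30 x b (ih t)) (wt b0 t)) l)) n

theorem pv_zero (wc : Nat → List Nat → Nat → Nat → Nat) (b0 y0 : Nat) (l : List Op) :
    pv wc b0 y0 0 l = y0 := rfl

theorem pv_succ (wc : Nat → List Nat → Nat → Nat → Nat) (b0 y0 n : Nat) (l : List Op) :
    pv wc b0 y0 (n + 1) l
      = fd (selS (fun x t => app wc 30 x (b0 + (t.map shO).sum) (pv wc b0 y0 n t)) l) := by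
  change fd (selS (fun x t => frc (fun b => app wc 30 x b (pv wc b0 y0 n t)) (wt b0 t)) l) = _
  simp only [frc_eq, wt_eq]

/-- mask of the high three bits of 430 lanes of 30 bits -/
noncomputable def HM : Nat :=
  Nat.mul (Nat.sub (Nat.pow 2 30) (Nat.pow 2 27))
    (Nat.div (Nat.sub (Nat.pow 2 12900) 1) (Nat.sub (Nat.pow 2 30) 1))

/-- zero test: all lanes divisible by `7` -/
noncomputable def zt (y : Nat) : Bool :=
  Bool.rec (motive := fun _ => Bool) false (Nat.beq (Nat.land (Nat.div y 7) HM) 0)
    (Nat.beq (Nat.mod y 7) 0)

/-- test of one leaf -/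
noncomputable def lt6 (wc : Nat → List Nat → Nat → Nat → Nat) (b0 y0 : Nat) (l : List Op) : Bool :=
  zt (pv wc b0 y0 6 l)

end Pool.Agent.Work.MP_bde882_al.Pg62
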