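import Pool.Agent.Work.MP_bde882_al_h87.Widen
import Pool.Agent.Work.MP_bde882_al_h62.Prog

/-!
A second program for the widening of packed numbers, with one product and one mask for two
steps at once (few intermediate numbers), and the proof that it gives the same numbers.
-/

set_option autoImplicit false
set_option linter.unusedSectionVars false
set_option exponentiation.threshold 20000

namespace Pool.Agent.Work.MP_bde882_al.W62

open Finset Pool.Agent.Work.MP_bde882_al.Pk Pool.Agent.Work.MP_bde882_al.H87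

theorem lanes_quad (U : ℕ) (a b c d : ℕ → ℕ) (n : ℕ) :
    lanes (4 * U) (fun g => a g + 2 ^ U * b g + 2 ^ (2 * U) * c g + 2 ^ (3 * U) * d g) n
      = lanes U (fun p => if p % 4 = 0 then a (p / 4) else if p % 4 = 1 then b (p / 4)
          else if p % 4 = 2 then c (p / 4) else d (p / 4)) (4 * n) := by
  induction n with
  | zero => simp [lanes]
  | succ n ih =>
    rw [lanes_succ, ih, show 4 * (n + 1) = 4 * n + 1 + 1 + 1 + 1 by ring, lanes_succ, lanes_succ,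
      lanes_succ, lanes_succ]
    have e0 : (4 * n) % 4 = 0 := by omega
    have e1 : (4 * n + 1) % 4 = 1 := by omega
    have e2 : (4 * n + 1 + 1) % 4 = 2 := by omega
    have e3 : (4 * n + 1 + 1 + 1) % 4 = 3 := by omega
    have f0 : 4 * n / 4 = n := by omega
    have f1 : (4 * n + 1) / 4 = n := by omega
    have f2 : (4 * n + 1 + 1) / 4 = n := by omega
    have f3 : (4 * n + 1 + 1 + 1) / 4 = n := by omega
    rw [e0, e1, e2, e3, f0, f1, f2, f3]
    have g1 : ¬ ((1 : ℕ) = 0) := by norm_num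
    have g2 : ¬ ((2 : ℕ) = 0) := by norm_num
    have g3 : ¬ ((2 : ℕ) = 1) := by norm_num
    have g4 : ¬ ((3 : ℕ) = 0) := by norm_num
    have g5 : ¬ ((3 : ℕ) = 1) := by norm_num
    have g6 : ¬ ((3 : ℕ) = 2) := by norm_num
    rw [if_pos rfl, if_neg g1, if_pos rfl, if_neg g2, if_neg g3, if_pos rfl, if_neg g4, if_neg g5,
      if_neg g6]
    have h0 : 2 ^ (U * (4 * n)) = 2 ^ (4 * U * n) := by
      congr 1
      ring
    have h1 : 2 ^ (U * (4 * n + 1)) = 2 ^ U * 2 ^ (4 * U * n) := by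
      rw [← pow_add]
      congr 1
      ring
    have h2 : 2 ^ (U * (4 * n + 1 + 1)) = 2 ^ (2 * U) * 2 ^ (4 * U * n) := by
      rw [← pow_add]
      congr 1
      ring
    have h3 : 2 ^ (U * (4 * n + 1 + 1 + 1)) = 2 ^ (3 * U) * 2 ^ (4 * U * n) := by
      rw [← pow_add]
      congr 1
      ring
    rw [h0, h1, h2, h3]
    ring

/-- the multiplier `1 + v + v² + v³` with `v = 2 ^ ((W - 3) s)` -/
noncomputable def cm (W s : ℕ) : ℕ :=
  Nat.div (Nat.sub (Nat.pow 2 (Nat.mul (Nat.mul (Nat.sub W 3) s) 4)) 1)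
    (Nat.sub (Nat.pow 2 (Nat.mul (Nat.sub W 3) s)) 1)

/-- the mask: the lowest `3 s` bits in each group of `W s` bits -/
noncomputable def mk4 (W s : ℕ) : ℕ :=
  Nat.div (Nat.mul (Nat.sub (Nat.pow 2 (Nat.mul 3 s)) 1)
    (Nat.sub (Nat.pow 2 (Nat.mul W 4096)) 1))
    (Nat.sub (Nat.pow 2 (Nat.mul W s)) 1)

/-- two steps of the widening at once -/
noncomputable def st4 (W s x : ℕ) : ℕ := Nat.land (Nat.mul x (cm W s)) (mk4 W s)

/-- widening of a number of `4096` lanes of 3 bits to lanes of `W` bits -/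
noncomputable def widen4 (W x : ℕ) : ℕ :=
  st4 W 1 (st4 W 4 (st4 W 16 (st4 W 64 (st4 W 256 (st4 W 1024
    (Nat.land x (Nat.sub (Nat.pow 2 12288) 1)))))))

theorem cm_eq (W s : ℕ) (hW : 3 < W) (hs : 0 < s) :
    cm W s = 1 + 2 ^ ((W - 3) * s) + (2 ^ ((W - 3) * s)) ^ 2 + (2 ^ ((W - 3) * s)) ^ 3 := by
  change (2 ^ ((W - 3) * s * 4) - 1) / (2 ^ ((W - 3) * s) - 1) = _
  have h1 := lanes_const_eq ((W - 3) * s) 1 4
  rw [one_mul] at h1
  rw [← h1, Nat.mul_div_cancel]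
  · simp only [lanes, sum_range_succ, sum_range_zero]
    rw [← pow_mul, ← pow_mul]
    ring
  · have h2 : 0 < (W - 3) * s := Nat.mul_pos (by omega) hs
    have h3 : 1 < 2 ^ ((W - 3) * s) := Nat.one_lt_two_pow (by omega)
    omega

theorem mk4_eq (W s m : ℕ) (hW : 0 < W) (hs : 0 < s) (hm : s * m = 4096) :
    mk4 W s = lanes (W * s) (fun _ => 2 ^ (3 * s) - 1) m := by
  change (2 ^ (3 * s) - 1) * (2 ^ (W * 4096) - 1) / (2 ^ (W * s) - 1) = _
  have h1 := lanes_const_eq (W * s) (2 ^ (3 * s) - 1) m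
  have h2 : W * s * m = W * 4096 := by rw [mul_assoc, hm]
  rw [h2] at h1
  rw [← h1]
  refine Nat.mul_div_cancel _ ?_
  have h4 : 0 < W * s := Nat.mul_pos hW hs
  have h3 : 1 < 2 ^ (W * s) := Nat.one_lt_two_pow (by omega)
  omega

/-- the lanes of the product -/
theorem quad_mul (u q x0 x1 x2 x3 : ℕ) :
    (x0 + u * x1 + u ^ 2 * x2 + u ^ 3 * x3) * (1 + u ^ 3 * q + (u ^ 3 * q) ^ 2 + (u ^ 3 * q) ^ 3)
      = (x0 + u * x1 + u ^ 2 * x2 + u ^ 3 * x3 + q * u ^ 3 * x0)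
        + (u ^ 4 * q) * (x1 + u * x2 + u ^ 2 * x3 + q * u ^ 2 * (x0 + u * x1))
        + (u ^ 4 * q) ^ 2 * (x2 + u * x3 + q * u * (x0 + u * x1 + u ^ 2 * x2))
        + (u ^ 4 * q) ^ 3 * (x3 + q * (x0 + u * x1 + u ^ 2 * x2 + u ^ 3 * x3) * 0) := by
  ring

theorem lt_aux (u x y B : ℕ) (hx : x < u) (hy : y < B) : x + u * y < u * B := by
  have h : u * (y + 1) ≤ u * B := Nat.mul_le_mul_left _ hy
  rw [Nat.mul_succ] at h
  omega

theorem top_aux (A M y B : ℕ) (hA : A < M) (hy : y < B) : A + M * y < M * B := by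
  have h : M * (y + 1) ≤ M * B := Nat.mul_le_mul_left _ hy
  rw [Nat.mul_succ] at h
  omega

section bounds

variable {u q x0 x1 x2 x3 : ℕ} (huq : u ≤ q) (h0 : x0 < u) (h1 : x1 < u) (h2 : x2 < u)
  (h3 : x3 < u)

include huq h0 h1 h2 h3

theorem b0 : x0 + u * x1 + u ^ 2 * x2 + u ^ 3 * x3 + q * u ^ 3 * x0 < u ^ 4 * q := by
  have a1 := lt_aux u x2 x3 u h2 h3
  have a2 := lt_aux u x1 (x2 + u * x3) (u * u) h1 a1
  have a3 := lt_aux u x0 (x1 + u * (x2 + u * x3)) (u * (u * u)) h0 a2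
  have a4 : u * (u * (u * u)) ≤ q * u ^ 3 := by
    calc u * (u * (u * u)) = u * u ^ 3 := by ring
      _ ≤ q * u ^ 3 := Nat.mul_le_mul_right _ huq
  have a5 := top_aux _ (q * u ^ 3) x0 u (lt_of_lt_of_le a3 a4) h0
  calc x0 + u * x1 + u ^ 2 * x2 + u ^ 3 * x3 + q * u ^ 3 * x0
      = x0 + u * (x1 + u * (x2 + u * x3)) + q * u ^ 3 * x0 := by ring
    _ < q * u ^ 3 * u := a5
    _ = u ^ 4 * q := by ring

theorem b1 : x1 + u * x2 + u ^ 2 * x3 + q * u ^ 2 * (x0 + u * x1) < u ^ 4 * q := by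
  have a1 := lt_aux u x2 x3 u h2 h3
  have a2 := lt_aux u x1 (x2 + u * x3) (u * u) h1 a1
  have a4 : u * (u * u) ≤ q * u ^ 2 := by
    calc u * (u * u) = u * u ^ 2 := by ring
      _ ≤ q * u ^ 2 := Nat.mul_le_mul_right _ huq
  have a5 := top_aux _ (q * u ^ 2) (x0 + u * x1) (u * u) (lt_of_lt_of_le a2 a4)
    (lt_aux u x0 x1 u h0 h1)
  calc x1 + u * x2 + u ^ 2 * x3 + q * u ^ 2 * (x0 + u * x1)
      = x1 + u * (x2 + u * x3) + q * u ^ 2 * (x0 + u * x1) := by ring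
    _ < q * u ^ 2 * (u * u) := a5
    _ = u ^ 4 * q := by ring

theorem b2 : x2 + u * x3 + q * u * (x0 + u * x1 + u ^ 2 * x2) < u ^ 4 * q := by
  have a1 := lt_aux u x2 x3 u h2 h3
  have a4 : u * u ≤ q * u := Nat.mul_le_mul_right _ huq
  have c1 := lt_aux u x1 x2 u h1 h2
  have c2 := lt_aux u x0 (x1 + u * x2) (u * u) h0 c1
  have a5 := top_aux _ (q * u) (x0 + u * (x1 + u * x2)) (u * (u * u)) (lt_of_lt_of_le a1 a4) c2
  calc x2 + u * x3 + q * u * (x0 + u * x1 + u ^ 2 * x2)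
      = x2 + u * x3 + q * u * (x0 + u * (x1 + u * x2)) := by ring
    _ < q * u * (u * (u * u)) := a5
    _ = u ^ 4 * q := by ring

theorem b3 : x3 < u ^ 4 * q := by
  have hu : 0 < u := by omega
  have hq : 0 < q := by omega
  calc x3 < u := h3
    _ = u * 1 := (mul_one u).symm
    _ ≤ u * (u ^ 3 * q) := Nat.mul_le_mul_left _ (Nat.mul_pos (by positivity) hq)
    _ = u ^ 4 * q := by ring

end bounds

/-- **One step.** -/
theorem st4_lanes (W s m : ℕ) (hW : 15 ≤ W) (hs : 0 < s) (hm : s * (4 * m) = 4096)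
    (x0 x1 x2 x3 : ℕ → ℕ) (h0 : ∀ g, x0 g < 2 ^ (3 * s)) (h1 : ∀ g, x1 g < 2 ^ (3 * s))
    (h2 : ∀ g, x2 g < 2 ^ (3 * s)) (h3 : ∀ g, x3 g < 2 ^ (3 * s)) :
    st4 W s (lanes (4 * (W * s)) (fun g => x0 g + 2 ^ (3 * s) * x1 g + (2 ^ (3 * s)) ^ 2 * x2 g
        + (2 ^ (3 * s)) ^ 3 * x3 g) m)
      = lanes (W * s) (fun p => if p % 4 = 0 then x0 (p / 4) else if p % 4 = 1 then x1 (p / 4)
          else if p % 4 = 2 then x2 (p / 4) else x3 (p / 4)) (4 * m) := by
  obtain ⟨w, rfl⟩ : ∃ w, W = w + 12 := ⟨W - 12, by omega⟩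
  set u := 2 ^ (3 * s) with hu
  set q := 2 ^ (w * s) with hq
  have huq : u ≤ q := by
    rw [hu, hq]
    exact Nat.pow_le_pow_right (by norm_num) (Nat.mul_le_mul_right _ (by omega))
  have hv : 2 ^ ((w + 12 - 3) * s) = u ^ 3 * q := by
    have e : w + 12 - 3 = w + 9 := by omega
    rw [e, hu, hq, ← pow_mul, ← pow_add]
    congr 1
    ring
  have hU : 2 ^ ((w + 12) * s) = u ^ 4 * q := by
    rw [hu, hq, ← pow_mul, ← pow_add]
    congr 1
    ring
  have hU2 : 2 ^ (2 * ((w + 12) * s)) = (u ^ 4 * q) ^ 2 := by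
    rw [← hU, ← pow_mul]
    congr 1
    ring
  have hU3 : 2 ^ (3 * ((w + 12) * s)) = (u ^ 4 * q) ^ 3 := by
    rw [← hU, ← pow_mul]
    congr 1
    ring
  have hu1 : 1 ≤ u := Nat.one_le_two_pow
  have hq1 : 1 ≤ q := Nat.one_le_two_pow
  change (lanes (4 * ((w + 12) * s)) _ m * cm (w + 12) s) &&& mk4 (w + 12) s = _
  rw [lanes_mul, cm_eq _ _ (by omega) hs, mk4_eq _ _ (4 * m) (by omega) hs hm, hv]
  rw [lanes_congr (4 * ((w + 12) * s)) (b := fun g =>
      (x0 g + u * x1 g + u ^ 2 * x2 g + u ^ 3 * x3 g + q * u ^ 3 * x0 g)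
        + 2 ^ ((w + 12) * s) * (x1 g + u * x2 g + u ^ 2 * x3 g + q * u ^ 2 * (x0 g + u * x1 g))
        + 2 ^ (2 * ((w + 12) * s)) * (x2 g + u * x3 g + q * u * (x0 g + u * x1 g + u ^ 2 * x2 g))
        + 2 ^ (3 * ((w + 12) * s)) * x3 g) (fun g _ => by
    rw [quad_mul, hU, hU2, hU3]
    ring)]
  have hmask : ∀ i < 4 * m, 2 ^ (3 * s) - 1 < 2 ^ ((w + 12) * s) := by
    intro i _
    have e1 : 2 ^ (3 * s) ≤ 2 ^ ((w + 12) * s) :=
      Nat.pow_le_pow_right (by norm_num) (Nat.mul_le_mul_right _ (by omega))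
    have e2 : 1 ≤ 2 ^ (3 * s) := Nat.one_le_two_pow
    omega
  rw [lanes_quad ((w + 12) * s) (fun g => x0 g + u * x1 g + u ^ 2 * x2 g + u ^ 3 * x3 g
      + q * u ^ 3 * x0 g) (fun g => x1 g + u * x2 g + u ^ 2 * x3 g + q * u ^ 2 * (x0 g + u * x1 g))
      (fun g => x2 g + u * x3 g + q * u * (x0 g + u * x1 g + u ^ 2 * x2 g)) (fun g => x3 g),
    land_lanes _ _ _ _ ?_ hmask]
  · refine lanes_congr _ (fun p _ => ?_)
    rw [land_low, ← hu]
    split_ifs
    · have e : x0 (p / 4) + u * x1 (p / 4) + u ^ 2 * x2 (p / 4) + u ^ 3 * x3 (p / 4)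
          + q * u ^ 3 * x0 (p / 4) = x0 (p / 4) + u * (x1 (p / 4) + u * x2 (p / 4)
          + u ^ 2 * x3 (p / 4) + q * u ^ 2 * x0 (p / 4)) := by ring
      rw [e, Nat.add_mul_mod_self_left, Nat.mod_eq_of_lt (h0 _)]
    · have e : x1 (p / 4) + u * x2 (p / 4) + u ^ 2 * x3 (p / 4)
          + q * u ^ 2 * (x0 (p / 4) + u * x1 (p / 4)) = x1 (p / 4) + u * (x2 (p / 4)
          + u * x3 (p / 4) + q * u * (x0 (p / 4) + u * x1 (p / 4))) := by ring
      rw [e, Nat.add_mul_mod_self_left, Nat.mod_eq_of_lt (h1 _)]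
    · have e : x2 (p / 4) + u * x3 (p / 4)
          + q * u * (x0 (p / 4) + u * x1 (p / 4) + u ^ 2 * x2 (p / 4)) = x2 (p / 4)
          + u * (x3 (p / 4) + q * (x0 (p / 4) + u * x1 (p / 4) + u ^ 2 * x2 (p / 4))) := by ring
      rw [e, Nat.add_mul_mod_self_left, Nat.mod_eq_of_lt (h2 _)]
    · exact Nat.mod_eq_of_lt (h3 _)
  · intro p _
    rw [hU]
    change (if _ then _ else _) < _
    split_ifs
    · exact b0 huq (h0 _) (h1 _) (h2 _) (h3 _)
    · exact b1 huq (h0 _) (h1 _) (h2 _) (h3 _)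
    · exact b2 huq (h0 _) (h1 _) (h2 _) (h3 _)
    · exact b3 huq (h0 (p / 4)) (h1 (p / 4)) (h2 (p / 4)) (h3 (p / 4))

/-- **One step**, in the form of the intermediate numbers: `s = 2 ^ j`. -/
theorem st4_lv (W : ℕ) (hW : 15 ≤ W) (D : ℕ → ℕ) (hD : ∀ p, D p < 8) (j m : ℕ)
    (hm : 2 ^ j * (4 * m) = 4096) :
    st4 W (2 ^ j) (lv W D (j + 2) m) = lv W D j (4 * m) := by
  set s := 2 ^ j with hs
  have hs4 : 2 ^ (j + 2) = s + s + s + s := by
    rw [hs, pow_add]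
    ring
  have hsp : 0 < s := by positivity
  set y : ℕ → ℕ → ℕ := fun k g => lanes 3 (fun i => D (4 * s * g + k * s + i)) s with hy
  have hylt : ∀ k g, y k g < 2 ^ (3 * s) := fun k g => lanes_lt 3 _ _ (fun i _ => hD _)
  have hx : lv W D (j + 2) m = lanes (4 * (W * s)) (fun g => y 0 g + 2 ^ (3 * s) * y 1 g
      + (2 ^ (3 * s)) ^ 2 * y 2 g + (2 ^ (3 * s)) ^ 3 * y 3 g) m := by
    unfold lv
    have e1 : W * 2 ^ (j + 2) = 4 * (W * s) := by
      rw [hs4]
      ring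
    rw [e1]
    refine lanes_congr _ (fun g _ => ?_)
    rw [hs4, lanes_split, lanes_split, lanes_split]
    have g0 : lanes 3 (fun i => D ((s + s + s + s) * g + i)) s = y 0 g := by
      simp only [hy]
      refine lanes_congr _ (fun i _ => ?_)
      congr 1
      ring
    have g1 : lanes 3 (fun i => D ((s + s + s + s) * g + (s + i))) s = y 1 g := by
      simp only [hy]
      refine lanes_congr _ (fun i _ => ?_)
      congr 1
      ring
    have g2 : lanes 3 (fun i => D ((s + s + s + s) * g + (s + s + i))) s = y 2 g := by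
      simp only [hy]
      refine lanes_congr _ (fun i _ => ?_)
      congr 1
      ring
    have g3 : lanes 3 (fun i => D ((s + s + s + s) * g + (s + s + s + i))) s = y 3 g := by
      simp only [hy]
      refine lanes_congr _ (fun i _ => ?_)
      congr 1
      ring
    rw [g0, g1, g2, g3]
    have f1 : 2 ^ (3 * (s + s)) = (2 ^ (3 * s)) ^ 2 := by
      rw [← pow_mul]
      congr 1
      ring
    have f2 : 2 ^ (3 * (s + s + s)) = (2 ^ (3 * s)) ^ 3 := by
      rw [← pow_mul]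
      congr 1
      ring
    rw [f1, f2]
  rw [hx, st4_lanes W s m hW hsp hm (y 0) (y 1) (y 2) (y 3) (hylt 0) (hylt 1) (hylt 2) (hylt 3)]
  unfold lv
  rw [← hs]
  refine lanes_congr _ (fun p _ => ?_)
  have hp : p = 4 * (p / 4) + p % 4 := by omega
  have hsub : ∀ k, p % 4 = k → y k (p / 4) = lanes 3 (fun i => D (s * p + i)) s := by
    intro k hk
    simp only [hy]
    refine lanes_congr _ (fun i _ => ?_)
    congr 1
    conv_rhs => rw [hp, hk]
    ring
  have h4 : p % 4 < 4 := Nat.mod_lt _ (by norm_num)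
  split_ifs with c0 c1 c2
  · exact hsub 0 c0
  · exact hsub 1 c1
  · exact hsub 2 c2
  · exact hsub 3 (by omega)

theorem widen4_eq (W x : ℕ) (hW : 15 ≤ W) : widen4 W x = widen W x := by
  rw [widen_spec W x (by omega)]
  have h0 : Nat.land x (Nat.sub (Nat.pow 2 12288) 1) = lv W (lane 3 x) 12 1 := by
    rw [land_eq]
    unfold lv
    have h1 := lanes_lane_mod 3 x (2 ^ 12)
    have h2 : (3 : ℕ) * 2 ^ 12 = 12288 := by norm_num
    rw [h2] at h1
    rw [← h1, lanes_succ, lanes_zero]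
    simp
  have hD : ∀ p, lane 3 x p < 8 := lane_lt_eight x
  have s10 := st4_lv W hW _ hD 10 1 (by norm_num)
  have s8 := st4_lv W hW _ hD 8 (4 * 1) (by norm_num)
  have s6 := st4_lv W hW _ hD 6 (4 * (4 * 1)) (by norm_num)
  have s4 := st4_lv W hW _ hD 4 (4 * (4 * (4 * 1))) (by norm_num)
  have s2 := st4_lv W hW _ hD 2 (4 * (4 * (4 * (4 * 1)))) (by norm_num)
  have s0 := st4_lv W hW _ hD 0 (4 * (4 * (4 * (4 * (4 * 1))))) (by norm_num)
  have p10 : 2 ^ 10 = 1024 := by norm_num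
  have p8 : 2 ^ 8 = 256 := by norm_num
  have p6 : 2 ^ 6 = 64 := by norm_num
  have p4 : 2 ^ 4 = 16 := by norm_num
  have p2 : 2 ^ 2 = 4 := by norm_num
  rw [p10] at s10
  rw [p8] at s8
  rw [p6] at s6
  rw [p4] at s4
  rw [p2] at s2
  rw [pow_zero] at s0
  unfold widen4
  rw [h0, s10, s8, s6, s4, s2, s0]
  unfold lv
  have e : 4 * (4 * (4 * (4 * (4 * (4 * 1))))) = 4096 := by norm_num
  rw [e, pow_zero, mul_one]
  refine lanes_congr _ (fun g _ => ?_)
  have h1 : ∀ f : ℕ → ℕ, lanes 3 f 1 = f 0 := by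
    intro f
    simp [lanes]
  rw [h1]
  simp

/-- widening of a list of pieces of `4096` lanes, low piece first -/
noncomputable def wide4 (W : ℕ) (l : List ℕ) : ℕ :=
  @List.rec ℕ (fun _ => ℕ) 0
    (fun p _ ih => Nat.add (widen4 W p) (Nat.shiftLeft ih (Nat.mul W 4096))) l

theorem wide4_eq (W : ℕ) (hW : 15 ≤ W) (l : List ℕ) : wide4 W l = wide W l := by
  induction l with
  | nil => rfl
  | cons p l ih =>
    change Nat.add (widen4 W p) (Nat.shiftLeft (wide4 W l) (Nat.mul W 4096))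
      = Nat.add (widen W p) (Nat.shiftLeft (wide W l) (Nat.mul W 4096))
    rw [ih, widen4_eq W p hW]

/-- the lanes `off, ..., off + n - 1` -/
noncomputable def wcut4 (W : ℕ) (l : List ℕ) (off n : ℕ) : ℕ :=
  Nat.land (Nat.shiftRight (wide4 W l) (Nat.mul W off)) (Nat.sub (Nat.pow 2 (Nat.mul W n)) 1)

theorem wcut4_eq (W : ℕ) (hW : 15 ≤ W) (l : List ℕ) (off n : ℕ) :
    wcut4 W l off n = wcut W l off n := by
  unfold wcut4 wcut
  rw [wide4_eq W hW]

open Pool.Agent.Work.MP_bde882_al.Pg62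

theorem apB_congr {wc wc' : Nat → List Nat → Nat → Nat → Nat} (W : ℕ)
    (h : ∀ l off n, wc W l off n = wc' W l off n) (b : Blk) (y : ℕ) :
    apB wc W b y = apB wc' W b y := by
  cases b with
  | no => rfl
  | mk K N off ch =>
    change Nat.mod (Nat.land (Nat.mul (wc W ch off (Nat.mul K N)) y) (tmask W K N)) (mdl W N)
      = Nat.mod (Nat.land (Nat.mul (wc' W ch off (Nat.mul K N)) y) (tmask W K N)) (mdl W N)
    rw [h]

theorem app_congr {wc wc' : Nat → List Nat → Nat → Nat → Nat} (W : ℕ)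
    (h : ∀ l off n, wc W l off n = wc' W l off n) (x : Op) (b y : ℕ) :
    app wc W x b y = app wc' W x b y := apB_congr W h _ _

theorem pv_congr {wc wc' : Nat → List Nat → Nat → Nat → Nat}
    (h : ∀ l off n, wc 30 l off n = wc' 30 l off n) (b0 y0 n : ℕ) (l : List Op) :
    pv wc b0 y0 n l = pv wc' b0 y0 n l := by
  induction n generalizing l with
  | zero => rfl
  | succ n ih =>
    rw [pv_succ, pv_succ]
    congr 1
    congr 1
    funext x t
    rw [app_congr 30 h, ih]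

theorem lt6_congr {wc wc' : Nat → List Nat → Nat → Nat → Nat}
    (h : ∀ l off n, wc 30 l off n = wc' 30 l off n) (b0 y0 : ℕ) (l : List Op) :
    lt6 wc b0 y0 l = lt6 wc' b0 y0 l := by
  unfold lt6
  rw [pv_congr h]

theorem lt6_wcut4 (b0 y0 : ℕ) (l : List Op) : lt6 wcut4 b0 y0 l = lt6 wcut b0 y0 l :=
  lt6_congr (fun l off n => wcut4_eq 30 (by norm_num) l off n) b0 y0 l

end Pool.Agent.Work.MP_bde882_al.W62
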