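import Pool.Agent.Work.MP_bde882_al_h62.JobsAll
import Pool.Agent.Work.MP_bde882_al_h69.LeavesOf
import Pool.Agent.Work.MP_bde882_al_tc.Fin

/-!
The big check for the concrete model.
-/

set_option autoImplicit false
set_option maxRecDepth 1000000
set_option maxHeartbeats 0

namespace Pool.Agent.Work.MP_bde882_al.J62

open Pool.Agent.Work.MP_bde882_al H87 Fin8

theorem hTO : (H69.flat3 GA).map (fun x => x.2.2) = TC.OO := rfl

theorem htbO (i : Fin 504) : TC.OO[i.val]? = some (TC.ob i) := by
  have h : i.val < TC.OO.length := by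
    rw [TC.OO_length]
    exact i.isLt
  rw [TC.ob, List.getElem?_eq_getElem h]

/-- **All leaf tests for the concrete model.** -/
theorem leaves_HH : DP.Leaves HH wcut TC.ob :=
  H69.leaves_of GA hG TC.OO hTO TC.ob htbO hjobs

/-- **The big check for the concrete model.** -/
theorem bigCheckC_HH : BigCheckC HH := TC.bigCheckC_of leaves_HH

end Pool.Agent.Work.MP_bde882_al.J62
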