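import Pool.Agent.Work.MP_bde882_al_tab.TabAll
import Pool.Agent.Work.MP_bde882_al_h62.Widen4
import Pool.Agent.Work.MP_bde882_al_h69.EnumE

/-!
The list of candidates for the enumeration, with the operator tables, and the leaf test.
-/

set_option autoImplicit false
set_option maxRecDepth 100000

namespace Pool.Agent.Work.MP_bde882_al.J62

open Pool.Agent.Work.MP_bde882_al.Pg62
open Pool.Agent.Work.MP_bde882_al.Tab
open Pool.Agent.Work.MP_bde882_al.H69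
open Pool.Agent.Work.MP_bde882_al.W62

noncomputable def GA : List (ℕ × List (Hd × List Op)) :=
  [(1, [(⟨256, 1, 49⟩, [T1_0])]),
   (2, [(⟨17, 2, 8⟩, [T2_9])]),
   (3, [(⟨18, 3, 9⟩, [T3_38]), (⟨33, 3, 15⟩, [T3_37]), (⟨258, 3, 51⟩, [T3_34]),
    (⟨273, 3, 57⟩, [T3_36, T3_33]), (⟨288, 3, 63⟩, [T3_17]), (⟨513, 3, 99⟩, [T3_32]),
    (⟨528, 3, 105⟩, [T3_16])]),
   (4, [(⟨19, 4, 10⟩, [T4_154]), (⟨34, 4, 16⟩, [T4_153]), (⟨49, 4, 22⟩, [T4_149]),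
    (⟨259, 4, 52⟩, [T4_138]), (⟨274, 4, 58⟩, [T4_152, T4_137, T4_146]),
    (⟨289, 4, 64⟩, [T4_148, T4_145, T4_133]), (⟨304, 4, 70⟩, [T4_69]), (⟨514, 4, 100⟩, [T4_136]),
    (⟨529, 4, 106⟩, [T4_144, T4_132, T4_129]), (⟨544, 4, 112⟩, [T4_68]), (⟨769, 4, 148⟩, [T4_128]),
    (⟨784, 4, 154⟩, [T4_64])]),
   (5, [(⟨20, 5, 11⟩, [T5_618]), (⟨35, 5, 17⟩, [T5_617, T5_614]), (⟨50, 5, 23⟩, [T5_613, T5_598]),
    (⟨65, 5, 29⟩, [T5_597]), (⟨260, 5, 53⟩, [T5_554]),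
    (⟨275, 5, 59⟩, [T5_616, T5_553, T5_610, T5_550]),
    (⟨290, 5, 65⟩, [T5_612, T5_609, T5_549, T5_585, T5_594, T5_582]),
    (⟨305, 5, 71⟩, [T5_596, T5_593, T5_581, T5_533]), (⟨320, 5, 77⟩, [T5_277]),
    (⟨515, 5, 101⟩, [T5_552, T5_546]),
    (⟨530, 5, 107⟩, [T5_608, T5_548, T5_584, T5_545, T5_578, T5_530]),
    (⟨545, 5, 113⟩, [T5_592, T5_580, T5_532, T5_577, T5_529, T5_517]),
    (⟨560, 5, 119⟩, [T5_276, T5_273]), (⟨770, 5, 149⟩, [T5_544, T5_514]),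
    (⟨785, 5, 155⟩, [T5_576, T5_528, T5_516, T5_513]), (⟨800, 5, 161⟩, [T5_272, T5_257]),
    (⟨1025, 5, 197⟩, [T5_512]), (⟨1040, 5, 203⟩, [T5_256])]),
   (6, [(⟨21, 6, 12⟩, [T6_2474]), (⟨36, 6, 18⟩, [T6_2473, T6_2470]),
    (⟨51, 6, 24⟩, [T6_2469, T6_2457, T6_2454]), (⟨66, 6, 30⟩, [T6_2453, T6_2393]),
    (⟨81, 6, 36⟩, [T6_2389]), (⟨261, 6, 54⟩, [T6_2218]),
    (⟨276, 6, 60⟩, [T6_2472, T6_2217, T6_2466, T6_2214, T6_2442]),
    (⟨291, 6, 66⟩, [T6_2468, T6_2456, T6_2465, T6_2213, T6_2441, T6_2201, T6_2450, T6_2438, T6_2198, T6_2342]),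
    (⟨306, 6, 72⟩, [T6_2452, T6_2392, T6_2449, T6_2437, T6_2197, T6_2341, T6_2377, T6_2329, T6_2386, T6_2374]),
    (⟨321, 6, 78⟩, [T6_2388, T6_2385, T6_2373, T6_2325, T6_2133]), (⟨336, 6, 84⟩, [T6_1109]),
    (⟨516, 6, 102⟩, [T6_2216, T6_2210]),
    (⟨531, 6, 108⟩, [T6_2464, T6_2212, T6_2440, T6_2200, T6_2209, T6_2185, T6_2434, T6_2194, T6_2338, T6_2182]),
    (⟨546, 6, 114⟩, [T6_2448, T6_2436, T6_2196, T6_2340, T6_2376, T6_2328, T6_2433, T6_2193, T6_2337, T6_2181, T6_2313, T6_2121, T6_2370, T6_2322]),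
    (⟨561, 6, 120⟩, [T6_2384, T6_2372, T6_2324, T6_2132, T6_2369, T6_2321, T6_2129, T6_2309, T6_2117, T6_2069]),
    (⟨576, 6, 126⟩, [T6_1108, T6_1105]), (⟨771, 6, 150⟩, [T6_2208, T6_2184, T6_2178]),
    (⟨786, 6, 156⟩, [T6_2432, T6_2192, T6_2336, T6_2180, T6_2312, T6_2120, T6_2177, T6_2057, T6_2306, T6_2114]),
    (⟨801, 6, 162⟩, [T6_2368, T6_2320, T6_2128, T6_2308, T6_2116, T6_2068, T6_2305, T6_2113, T6_2065, T6_2053]),
    (⟨816, 6, 168⟩, [T6_1104, T6_1092, T6_1089]), (⟨1026, 6, 198⟩, [T6_2176, T6_2056]),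
    (⟨1041, 6, 204⟩, [T6_2304, T6_2112, T6_2064, T6_2052, T6_2049]),
    (⟨1056, 6, 210⟩, [T6_1088, T6_1028]), (⟨1281, 6, 246⟩, [T6_2048]), (⟨1296, 6, 252⟩, [T6_1024])]),
   (7, [(⟨22, 7, 13⟩, [T7_9898]), (⟨37, 7, 19⟩, [T7_9897, T7_9894, T7_9882]),
    (⟨52, 7, 25⟩, [T7_9893, T7_9881, T7_9878, T7_9830, T7_9818]),
    (⟨67, 7, 31⟩, [T7_9877, T7_9829, T7_9817, T7_9814, T7_9574]),
    (⟨82, 7, 37⟩, [T7_9813, T7_9573, T7_9558]), (⟨97, 7, 43⟩, [T7_9557]),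
    (⟨262, 7, 55⟩, [T7_8874]),
    (⟨277, 7, 61⟩, [T7_9896, T7_8873, T7_9890, T7_8870, T7_9866, T7_8858]),
    (⟨292, 7, 67⟩, [T7_9892, T7_9880, T7_9889, T7_8869, T7_9865, T7_8857, T7_9769, T7_9874, T7_9826, T7_9862, T7_8854, T7_9766, T7_8806, T7_9802, T7_9754]),
    (⟨307, 7, 73⟩, [T7_9876, T7_9828, T7_9816, T7_9873, T7_9825, T7_9861, T7_8853, T7_9765, T7_8805, T7_9801, T7_9753, T7_8793, T7_9369, T7_9810, T7_9570, T7_9798, T7_9750, T7_8790, T7_9366, T7_9318]),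
    (⟨322, 7, 79⟩, [T7_9812, T7_9572, T7_9809, T7_9569, T7_9797, T7_9749, T7_8789, T7_9365, T7_9509, T7_9317, T7_9545, T7_9497, T7_9554, T7_9542, T7_9494]),
    (⟨337, 7, 85⟩, [T7_9556, T7_9553, T7_9541, T7_9493, T7_9301, T7_8533]),
    (⟨352, 7, 91⟩, [T7_4437]), (⟨517, 7, 103⟩, [T7_8872, T7_8866, T7_8842]),
    (⟨532, 7, 109⟩, [T7_9888, T7_8868, T7_9864, T7_8856, T7_9768, T7_8865, T7_8841, T7_9858, T7_8850, T7_9762, T7_8802, T7_8838, T7_8742, T7_9738, T7_8778]),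
    (⟨547, 7, 115⟩, [T7_9872, T7_9824, T7_9860, T7_8852, T7_9764, T7_8804, T7_9800, T7_9752, T7_8792, T7_9368, T7_9857, T7_8849, T7_9761, T7_8801, T7_8837, T7_8741, T7_9737, T7_8777, T7_9353, T7_8729, T7_9794, T7_9746, T7_8786, T7_9362, T7_9506, T7_9314, T7_9734, T7_8774, T7_9350, T7_8726]),
    (⟨562, 7, 121⟩, [T7_9808, T7_9568, T7_9796, T7_9748, T7_8788, T7_9364, T7_9508, T7_9316, T7_9544, T7_9496, T7_9793, T7_9745, T7_8785, T7_9361, T7_9505, T7_9313, T7_9733, T7_8773, T7_9349, T7_8725, T7_9253, T7_8485, T7_9481, T7_9289, T7_9538, T7_9490, T7_9298, T7_8530, T7_9478, T7_9286]),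
    (⟨577, 7, 127⟩, [T7_9552, T7_9540, T7_9492, T7_9300, T7_8532, T7_9537, T7_9489, T7_9297, T7_8529, T7_9477, T7_9285, T7_8517, T7_9237, T7_8469, T7_8277]),
    (⟨592, 7, 133⟩, [T7_4436, T7_4433, T7_4421]),
    (⟨772, 7, 151⟩, [T7_8864, T7_8840, T7_8834, T7_8738, T7_8714]),
    (⟨787, 7, 157⟩, [T7_9856, T7_8848, T7_9760, T7_8800, T7_8836, T7_8740, T7_9736, T7_8776, T7_9352, T7_8728, T7_8833, T7_8737, T7_8713, T7_9730, T7_8770, T7_9346, T7_8722, T7_9250, T7_8482, T7_8710]),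
    (⟨802, 7, 163⟩, [T7_9792, T7_9744, T7_8784, T7_9360, T7_9504, T7_9312, T7_9732, T7_8772, T7_9348, T7_8724, T7_9252, T7_8484, T7_9480, T7_9288, T7_9729, T7_8769, T7_9345, T7_8721, T7_9249, T7_8481, T7_8709, T7_8229, T7_9225, T7_8457, T7_9474, T7_9282, T7_8514, T7_9234, T7_8466, T7_9222]),
    (⟨817, 7, 169⟩, [T7_9536, T7_9488, T7_9296, T7_8528, T7_9476, T7_9284, T7_8516, T7_9236, T7_8468, T7_8276, T7_9473, T7_9281, T7_8513, T7_9233, T7_8465, T7_8273, T7_9221, T7_8453, T7_8261, T7_8213]),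
    (⟨832, 7, 175⟩, [T7_4432, T7_4420, T7_4417, T7_4369, T7_4357]),
    (⟨1027, 7, 199⟩, [T7_8832, T7_8736, T7_8712, T7_8706, T7_8226]),
    (⟨1042, 7, 205⟩, [T7_9728, T7_8768, T7_9344, T7_8720, T7_9248, T7_8480, T7_8708, T7_8228, T7_9224, T7_8456, T7_8705, T7_8225, T7_9218, T7_8450, T7_8258]),
    (⟨1057, 7, 211⟩, [T7_9472, T7_9280, T7_8512, T7_9232, T7_8464, T7_8272, T7_9220, T7_8452, T7_8260, T7_8212, T7_9217, T7_8449, T7_8257, T7_8209, T7_8197]),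
    (⟨1072, 7, 217⟩, [T7_4416, T7_4368, T7_4356, T7_4353, T7_4113]),
    (⟨1282, 7, 247⟩, [T7_8704, T7_8224, T7_8194]),
    (⟨1297, 7, 253⟩, [T7_9216, T7_8448, T7_8256, T7_8208, T7_8196, T7_8193]),
    (⟨1312, 7, 259⟩, [T7_4352, T7_4112, T7_4097]), (⟨1537, 7, 295⟩, [T7_8192]),
    (⟨1552, 7, 301⟩, [T7_4096])])]

noncomputable def TBL : List Op :=
  [T1_0, T2_9, T3_38, T3_37, T3_34, T3_36, T3_33, T3_17, T3_32, T3_16, T4_154, T4_153, T4_149,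
   T4_138, T4_152, T4_137, T4_146, T4_148, T4_145, T4_133, T4_69, T4_136, T4_144, T4_132, T4_129,
   T4_68, T4_128, T4_64, T5_618, T5_617, T5_614, T5_613, T5_598, T5_597, T5_554, T5_616, T5_553,
   T5_610, T5_550, T5_612, T5_609, T5_549, T5_585, T5_594, T5_582, T5_596, T5_593, T5_581, T5_533,
   T5_277, T5_552, T5_546, T5_608, T5_548, T5_584, T5_545, T5_578, T5_530, T5_592, T5_580, T5_532,
   T5_577, T5_529, T5_517, T5_276, T5_273, T5_544, T5_514, T5_576, T5_528, T5_516, T5_513, T5_272,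
   T5_257, T5_512, T5_256, T6_2474, T6_2473, T6_2470, T6_2469, T6_2457, T6_2454, T6_2453, T6_2393,
   T6_2389, T6_2218, T6_2472, T6_2217, T6_2466, T6_2214, T6_2442, T6_2468, T6_2456, T6_2465,
   T6_2213, T6_2441, T6_2201, T6_2450, T6_2438, T6_2198, T6_2342, T6_2452, T6_2392, T6_2449,
   T6_2437, T6_2197, T6_2341, T6_2377, T6_2329, T6_2386, T6_2374, T6_2388, T6_2385, T6_2373,
   T6_2325, T6_2133, T6_1109, T6_2216, T6_2210, T6_2464, T6_2212, T6_2440, T6_2200, T6_2209,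
   T6_2185, T6_2434, T6_2194, T6_2338, T6_2182, T6_2448, T6_2436, T6_2196, T6_2340, T6_2376,
   T6_2328, T6_2433, T6_2193, T6_2337, T6_2181, T6_2313, T6_2121, T6_2370, T6_2322, T6_2384,
   T6_2372, T6_2324, T6_2132, T6_2369, T6_2321, T6_2129, T6_2309, T6_2117, T6_2069, T6_1108,
   T6_1105, T6_2208, T6_2184, T6_2178, T6_2432, T6_2192, T6_2336, T6_2180, T6_2312, T6_2120,
   T6_2177, T6_2057, T6_2306, T6_2114, T6_2368, T6_2320, T6_2128, T6_2308, T6_2116, T6_2068,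
   T6_2305, T6_2113, T6_2065, T6_2053, T6_1104, T6_1092, T6_1089, T6_2176, T6_2056, T6_2304,
   T6_2112, T6_2064, T6_2052, T6_2049, T6_1088, T6_1028, T6_2048, T6_1024, T7_9898, T7_9897,
   T7_9894, T7_9882, T7_9893, T7_9881, T7_9878, T7_9830, T7_9818, T7_9877, T7_9829, T7_9817,
   T7_9814, T7_9574, T7_9813, T7_9573, T7_9558, T7_9557, T7_8874, T7_9896, T7_8873, T7_9890,
   T7_8870, T7_9866, T7_8858, T7_9892, T7_9880, T7_9889, T7_8869, T7_9865, T7_8857, T7_9769,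
   T7_9874, T7_9826, T7_9862, T7_8854, T7_9766, T7_8806, T7_9802, T7_9754, T7_9876, T7_9828,
   T7_9816, T7_9873, T7_9825, T7_9861, T7_8853, T7_9765, T7_8805, T7_9801, T7_9753, T7_8793,
   T7_9369, T7_9810, T7_9570, T7_9798, T7_9750, T7_8790, T7_9366, T7_9318, T7_9812, T7_9572,
   T7_9809, T7_9569, T7_9797, T7_9749, T7_8789, T7_9365, T7_9509, T7_9317, T7_9545, T7_9497,
   T7_9554, T7_9542, T7_9494, T7_9556, T7_9553, T7_9541, T7_9493, T7_9301, T7_8533, T7_4437,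
   T7_8872, T7_8866, T7_8842, T7_9888, T7_8868, T7_9864, T7_8856, T7_9768, T7_8865, T7_8841,
   T7_9858, T7_8850, T7_9762, T7_8802, T7_8838, T7_8742, T7_9738, T7_8778, T7_9872, T7_9824,
   T7_9860, T7_8852, T7_9764, T7_8804, T7_9800, T7_9752, T7_8792, T7_9368, T7_9857, T7_8849,
   T7_9761, T7_8801, T7_8837, T7_8741, T7_9737, T7_8777, T7_9353, T7_8729, T7_9794, T7_9746,
   T7_8786, T7_9362, T7_9506, T7_9314, T7_9734, T7_8774, T7_9350, T7_8726, T7_9808, T7_9568,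
   T7_9796, T7_9748, T7_8788, T7_9364, T7_9508, T7_9316, T7_9544, T7_9496, T7_9793, T7_9745,
   T7_8785, T7_9361, T7_9505, T7_9313, T7_9733, T7_8773, T7_9349, T7_8725, T7_9253, T7_8485,
   T7_9481, T7_9289, T7_9538, T7_9490, T7_9298, T7_8530, T7_9478, T7_9286, T7_9552, T7_9540,
   T7_9492, T7_9300, T7_8532, T7_9537, T7_9489, T7_9297, T7_8529, T7_9477, T7_9285, T7_8517,
   T7_9237, T7_8469, T7_8277, T7_4436, T7_4433, T7_4421, T7_8864, T7_8840, T7_8834, T7_8738,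
   T7_8714, T7_9856, T7_8848, T7_9760, T7_8800, T7_8836, T7_8740, T7_9736, T7_8776, T7_9352,
   T7_8728, T7_8833, T7_8737, T7_8713, T7_9730, T7_8770, T7_9346, T7_8722, T7_9250, T7_8482,
   T7_8710, T7_9792, T7_9744, T7_8784, T7_9360, T7_9504, T7_9312, T7_9732, T7_8772, T7_9348,
   T7_8724, T7_9252, T7_8484, T7_9480, T7_9288, T7_9729, T7_8769, T7_9345, T7_8721, T7_9249,
   T7_8481, T7_8709, T7_8229, T7_9225, T7_8457, T7_9474, T7_9282, T7_8514, T7_9234, T7_8466,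
   T7_9222, T7_9536, T7_9488, T7_9296, T7_8528, T7_9476, T7_9284, T7_8516, T7_9236, T7_8468,
   T7_8276, T7_9473, T7_9281, T7_8513, T7_9233, T7_8465, T7_8273, T7_9221, T7_8453, T7_8261,
   T7_8213, T7_4432, T7_4420, T7_4417, T7_4369, T7_4357, T7_8832, T7_8736, T7_8712, T7_8706,
   T7_8226, T7_9728, T7_8768, T7_9344, T7_8720, T7_9248, T7_8480, T7_8708, T7_8228, T7_9224,
   T7_8456, T7_8705, T7_8225, T7_9218, T7_8450, T7_8258, T7_9472, T7_9280, T7_8512, T7_9232,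
   T7_8464, T7_8272, T7_9220, T7_8452, T7_8260, T7_8212, T7_9217, T7_8449, T7_8257, T7_8209,
   T7_8197, T7_4416, T7_4368, T7_4356, T7_4353, T7_4113, T7_8704, T7_8224, T7_8194, T7_9216,
   T7_8448, T7_8256, T7_8208, T7_8196, T7_8193, T7_4352, T7_4112, T7_4097, T7_8192, T7_4096]

/-- operator of the element `i` of the Lie basis -/
noncomputable def ob (i : Fin 504) : Op := TBL.getD i.val (Op.mk 0 Tr.lf)

/-- leaf test -/
noncomputable def lf (b m : ℕ) (l : List Op) : Bool := lt6 wcut4 b (Nat.pow 2 (Nat.mul 30 m)) l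

theorem hG : shp GA = SHA := rfl

theorem hT : (flat3 GA).map (fun x => x.2.2) = TBL := rfl

theorem TBL_length : TBL.length = 504 := rfl

theorem htb (i : Fin 504) : TBL[i.val]? = some (ob i) := by
  have h : i.val < TBL.length := by
    rw [TBL_length]
    exact i.isLt
  rw [ob, List.getD_eq_getElem?_getD, List.getElem?_eq_getElem h, Option.getD_some]

end Pool.Agent.Work.MP_bde882_al.J62
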