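import Pool.Agent.Work.MP_bde882_al_jobs.J00
import Pool.Agent.Work.MP_bde882_al_jobs.J01
import Pool.Agent.Work.MP_bde882_al_jobs.J02
import Pool.Agent.Work.MP_bde882_al_jobs.J03
import Pool.Agent.Work.MP_bde882_al_jobs.J04
import Pool.Agent.Work.MP_bde882_al_jobs.J05
import Pool.Agent.Work.MP_bde882_al_jobs.J06
import Pool.Agent.Work.MP_bde882_al_jobs.J07
import Pool.Agent.Work.MP_bde882_al_jobs.J08
import Pool.Agent.Work.MP_bde882_al_jobs.J09
import Pool.Agent.Work.MP_bde882_al_jobs.J10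
import Pool.Agent.Work.MP_bde882_al_jobs.J11
import Pool.Agent.Work.MP_bde882_al_jobs.J12
import Pool.Agent.Work.MP_bde882_al_jobs.J13
import Pool.Agent.Work.MP_bde882_al_jobs.J14
import Pool.Agent.Work.MP_bde882_al_jobs.J15
import Pool.Agent.Work.MP_bde882_al_jobs.J16
import Pool.Agent.Work.MP_bde882_al_jobs.J17
import Pool.Agent.Work.MP_bde882_al_jobs.J18
import Pool.Agent.Work.MP_bde882_al_jobs.J19
import Pool.Agent.Work.MP_bde882_al_jobs.J20
import Pool.Agent.Work.MP_bde882_al_jobs.J21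
import Pool.Agent.Work.MP_bde882_al_jobs.J22
import Pool.Agent.Work.MP_bde882_al_jobs.J23
import Pool.Agent.Work.MP_bde882_al_jobs.J24
import Pool.Agent.Work.MP_bde882_al_jobs.J25
import Pool.Agent.Work.MP_bde882_al_jobs.J26
import Pool.Agent.Work.MP_bde882_al_jobs.J27
import Pool.Agent.Work.MP_bde882_al_jobs.J28
import Pool.Agent.Work.MP_bde882_al_jobs.J29
import Pool.Agent.Work.MP_bde882_al_jobs.J30
import Pool.Agent.Work.MP_bde882_al_jobs.J31
import Pool.Agent.Work.MP_bde882_al_jobs.J32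
import Pool.Agent.Work.MP_bde882_al_jobs.J33
import Pool.Agent.Work.MP_bde882_al_jobs.J34
import Pool.Agent.Work.MP_bde882_al_jobs.J35
import Pool.Agent.Work.MP_bde882_al_jobs.J36
import Pool.Agent.Work.MP_bde882_al_jobs.J37
import Pool.Agent.Work.MP_bde882_al_jobs.J38
import Pool.Agent.Work.MP_bde882_al_jobs.J39
import Pool.Agent.Work.MP_bde882_al_jobs.J40
import Pool.Agent.Work.MP_bde882_al_jobs.J41
import Pool.Agent.Work.MP_bde882_al_jobs.J42
import Pool.Agent.Work.MP_bde882_al_jobs.J43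
import Pool.Agent.Work.MP_bde882_al_jobs.J44
import Pool.Agent.Work.MP_bde882_al_jobs.J45
import Pool.Agent.Work.MP_bde882_al_jobs.J46
import Pool.Agent.Work.MP_bde882_al_jobs.J47
import Pool.Agent.Work.MP_bde882_al_h87.Model

/-!
All jobs of the big check.
-/

set_option autoImplicit false
set_option maxRecDepth 1000000
set_option maxHeartbeats 0

namespace Pool.Agent.Work.MP_bde882_al.J62

open Pool.Agent.Work.MP_bde882_al.Pg62
open Pool.Agent.Work.MP_bde882_al.H69
open Pool.Agent.Work.MP_bde882_al.W62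

/-- the concatenation of all explicit job lists -/
noncomputable def JJ : List (ℕ × ℕ × Hd × Op) :=
  J0 ++ (J1 ++ (J2 ++ (J3 ++ (J4 ++ (J5 ++ (J6 ++ (J7 ++ (J8 ++ (J9 ++ (J10 ++ (J11 ++ (J12 ++
  (J13 ++ (J14 ++ (J15 ++ (J16 ++ (J17 ++ (J18 ++ (J19 ++ (J20 ++ (J21 ++ (J22 ++ (J23 ++ (J24
  ++ (J25 ++ (J26 ++ (J27 ++ (J28 ++ (J29 ++ (J30 ++ (J31 ++ (J32 ++ (J33 ++ (J34 ++ (J35 ++
  (J36 ++ (J37 ++ (J38 ++ (J39 ++ (J40 ++ (J41 ++ (J42 ++ (J43 ++ (J44 ++ (J45 ++ (J46 ++
  (J47)))))))))))))))))))))))))))))))))))))))))))))))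

theorem allJ_JJ : allJ GA lf JJ = true :=
  allJ_append_true j0 (allJ_append_true j1 (allJ_append_true j2 (allJ_append_true j3
  (allJ_append_true j4 (allJ_append_true j5 (allJ_append_true j6 (allJ_append_true j7
  (allJ_append_true j8 (allJ_append_true j9 (allJ_append_true j10 (allJ_append_true j11
  (allJ_append_true j12 (allJ_append_true j13 (allJ_append_true j14 (allJ_append_true j15
  (allJ_append_true j16 (allJ_append_true j17 (allJ_append_true j18 (allJ_append_true j19
  (allJ_append_true j20 (allJ_append_true j21 (allJ_append_true j22 (allJ_append_true j23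
  (allJ_append_true j24 (allJ_append_true j25 (allJ_append_true j26 (allJ_append_true j27
  (allJ_append_true j28 (allJ_append_true j29 (allJ_append_true j30 (allJ_append_true j31
  (allJ_append_true j32 (allJ_append_true j33 (allJ_append_true j34 (allJ_append_true j35
  (allJ_append_true j36 (allJ_append_true j37 (allJ_append_true j38 (allJ_append_true j39
  (allJ_append_true j40 (allJ_append_true j41 (allJ_append_true j42 (allJ_append_true j43
  (allJ_append_true j44 (allJ_append_true j45 (allJ_append_true j46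
  (j47)))))))))))))))))))))))))))))))))))))))))))))))

theorem jobsX_eq : jobsX GA H87.dm = JJ := rfl

/-- **All jobs are true.** -/
theorem hjobs : allJ GA (fun β m l => lt6 wcut4 β (Nat.pow 2 (Nat.mul 30 m)) l)
    (jobsX GA H87.dm) = true := by
  rw [jobsX_eq]
  exact allJ_JJ

end Pool.Agent.Work.MP_bde882_al.J62
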